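import Pool.Agent.Helper31.LW.Goals
import Mathlib

/-!
# LW-NORM: the affine normal form of polytopes with few vertices
-/

open MeasureTheory Set
open scoped ENNReal Matrix

noncomputable section

namespace Pool.Agent.Helper24.LW

open Pool.Agent.Helper31.LW

/-- Weights, indexed by the index set of `x`. -/
theorem exists_weights {n m k : ℕ} (x : Fin m → Fin n → ℝ) (g : Fin m → Fin k) (p : Fin n → ℝ)
    (j : Fin k) (hp : p ∈ convexHull ℝ (x '' {a | g a = j})) :
    ∃ c : Fin m → ℝ, (∀ a, 0 ≤ c a) ∧ (∀ a, g a ≠ j → c a = 0) ∧ ∑ a, c a = 1 ∧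
      ∑ a, c a • x a = p := by
  classical
  rw [mem_convexHull_iff_exists_fintype] at hp
  obtain ⟨ι, _, w, z, hw0, hw1, hz, hwz⟩ := hp
  choose b hb hbz using hz
  refine ⟨fun a => ∑ i, if b i = a then w i else 0, ?_, ?_, ?_, ?_⟩
  · intro a
    exact Finset.sum_nonneg (fun i _ => by split_ifs; exacts [hw0 i, le_rfl])
  · intro a ha
    refine Finset.sum_eq_zero (fun i _ => ?_)
    rw [if_neg]
    rintro rfl
    exact ha (hb i)
  · rw [Finset.sum_comm]
    simp [hw1]
  · have : ∀ a, (∑ i, if b i = a then w i else 0) • x a = ∑ i, if b i = a then w i • x a else 0 := by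
      intro a
      rw [Finset.sum_smul]
      refine Finset.sum_congr rfl (fun i _ => ?_)
      split_ifs
      · rfl
      · rw [zero_smul]
    rw [Finset.sum_congr rfl (fun a _ => this a), Finset.sum_comm]
    simp only [Finset.sum_ite_eq, Finset.mem_univ, if_true]
    rw [← hwz]
    exact Finset.sum_congr rfl (fun i _ => by rw [hbz i])

theorem gNORM : NORM := by
  classical
  intro n k _hk x g p hint hp
  choose c hc0 hcz hc1 hcx using fun j => exists_weights x g p j (hp j)
  have hex : ∀ j, ∃ a, 0 < c j a := by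
    intro j
    by_contra hcon
    push Not at hcon
    have h0 : ∑ a, c j a ≤ 0 := Finset.sum_nonpos (fun a _ => hcon a)
    rw [hc1 j] at h0
    linarith
  choose a ha using hex
  have hga : ∀ j, g (a j) = j := by
    intro j
    by_contra hne
    have := hcz j (a j) hne
    have h2 := ha j
    rw [this] at h2
    exact lt_irrefl _ h2
  have hinj : Function.Injective a := by
    intro j j' h
    rw [← hga j, ← hga j', h]
  have hcard : Fintype.card (Fin n) = Fintype.card {b // b ∉ Set.range a} := by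
    have h1 : Fintype.card {b // b ∉ Set.range a} =
        Fintype.card (Fin (n + k)) - Fintype.card {b // b ∈ Set.range a} :=
      Fintype.card_subtype_compl _
    have h2 : Fintype.card {b // b ∈ Set.range a} = Fintype.card (Fin k) :=
      (Fintype.card_congr (Equiv.ofInjective a hinj)).symm
    rw [h1, h2, Fintype.card_fin, Fintype.card_fin, Fintype.card_fin]
    omega
  let φ : Fin n ≃ {b // b ∉ Set.range a} := Fintype.equivOfCardEq hcard
  let E : Fin k ⊕ Fin n ≃ Fin (n + k) :=
    ((Equiv.ofInjective a hinj).sumCongr φ).trans (Equiv.Set.sumCompl (Set.range a))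
  have hE1 : ∀ j, E (Sum.inl j) = a j := fun j => rfl
  have hE2 : ∀ i, E (Sum.inr i) = (φ i : Fin (n + k)) := fun i => rfl
  have hsum : ∀ F : Fin (n + k) → Fin n → ℝ, ∑ b, F b = ∑ j, F (a j) + ∑ i, F (φ i) := by
    intro F
    rw [← E.sum_comp, Fintype.sum_sum_type]
    simp only [hE1, hE2]
  let u : Fin n → Fin n → ℝ := fun i => x (φ i) - p
  let g' : Fin n → Fin k := fun i => g (φ i)
  let w : Fin n → ℝ := fun i => c (g (φ i)) (φ i) / c (g (φ i)) (a (g (φ i)))
  have hw0 : ∀ i, 0 ≤ w i := fun i => div_nonneg (hc0 _ _) (ha _).le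
  have hwv : ∀ j i, wv g' w j i = c j (φ i) / c j (a j) := by
    intro j i
    simp only [wv, g', w]
    by_cases h : g (φ i) = j
    · rw [if_pos h, h]
    · rw [if_neg h, hcz j _ h, zero_div]
  -- the main identity
  have hmain : ∀ j, x (a j) = p - ∑ i, wv g' w j i • u i := by
    intro j
    have h0 : ∑ b, c j b • (x b - p) = 0 := by
      simp only [smul_sub]
      rw [Finset.sum_sub_distrib, hcx j, ← Finset.sum_smul, hc1 j, one_smul, sub_self]
    rw [hsum] at h0
    have h1 : ∑ j', c j (a j') • (x (a j') - p) = c j (a j) • (x (a j) - p) := by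
      rw [Finset.sum_eq_single j]
      · intro j' _ hne
        rw [hcz j (a j') (by rw [hga]; exact hne), zero_smul]
      · intro h
        exact absurd (Finset.mem_univ _) h
    rw [h1] at h0
    have hpos := ha j
    have h2 : x (a j) - p = -∑ i, wv g' w j i • u i := by
      have h3 : x (a j) - p = (c j (a j))⁻¹ • (c j (a j) • (x (a j) - p)) := by
        rw [smul_smul, inv_mul_cancel₀ hpos.ne', one_smul]
      rw [h3, eq_neg_of_add_eq_zero_left h0, smul_neg, Finset.smul_sum]
      congr 1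
      refine Finset.sum_congr rfl (fun i _ => ?_)
      rw [smul_smul, hwv, div_eq_inv_mul]
    rw [sub_eq_iff_eq_add] at h2
    rw [h2]
    abel
  have hphi : ∀ i, x (φ i) = p + u i := by
    intro i
    simp only [u]
    abel
  -- the linear map
  let L : (Fin n → ℝ) →ₗ[ℝ] (Fin n → ℝ) := Fintype.linearCombination ℝ u
  have hLa : ∀ j, p + L (-(wv g' w j)) = x (a j) := by
    intro j
    rw [hmain j, map_neg, Fintype.linearCombination_apply, sub_eq_add_neg]
  have hLs : ∀ i, p + L (Pi.single i 1) = x (φ i) := by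
    intro i
    rw [hphi i]
    congr 1
    show Fintype.linearCombination ℝ u (Pi.single i 1) = u i
    rw [Fintype.linearCombination_apply_single, one_smul]
  have hrange : ∀ b, ∃ y, p + L y = x b := by
    intro b
    obtain ⟨s, rfl⟩ := E.surjective b
    rcases s with j | i
    · exact ⟨_, hLa j⟩
    · exact ⟨_, hLs i⟩
  have hsurj : Function.Surjective L := by
    rw [← LinearMap.range_eq_top]
    have h1 : affineSpan ℝ (Set.range x) = ⊤ :=
      interior_convexHull_nonempty_iff_affineSpan_eq_top.mp hint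
    have h2 : affineSpan ℝ (Set.range x) ≤ AffineSubspace.mk' p (LinearMap.range L) := by
      rw [affineSpan_le]
      rintro _ ⟨b, rfl⟩
      obtain ⟨y, hy⟩ := hrange b
      show x b ∈ AffineSubspace.mk' p (LinearMap.range L)
      rw [AffineSubspace.mem_mk']
      refine ⟨y, ?_⟩
      rw [← hy, vsub_eq_sub]
      abel
    rw [h1, top_le_iff] at h2
    have h3 := congrArg AffineSubspace.direction h2
    rwa [AffineSubspace.direction_mk', AffineSubspace.direction_top] at h3
  have hinjL : Function.Injective L := LinearMap.injective_iff_surjective.mpr hsurj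
  let Le : (Fin n → ℝ) ≃ₗ[ℝ] (Fin n → ℝ) := LinearEquiv.ofBijective L ⟨hinjL, hsurj⟩
  let A : (Fin n → ℝ) ≃ᵃ[ℝ] (Fin n → ℝ) :=
    Le.toAffineEquiv.trans (AffineEquiv.constVAdd ℝ (Fin n → ℝ) p)
  have hA : ∀ y, A y = p + L y := fun y => rfl
  refine ⟨g', w, A, hw0, ?_⟩
  have himg : (A : (Fin n → ℝ) → (Fin n → ℝ)) '' NF g' w =
      ((A : (Fin n → ℝ) →ᵃ[ℝ] (Fin n → ℝ)) : (Fin n → ℝ) → (Fin n → ℝ)) '' NF g' w := rfl
  rw [himg, NF, AffineMap.image_convexHull]
  congr 1
  rw [image_union, ← range_comp, ← range_comp]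
  have e1 : ((A : (Fin n → ℝ) →ᵃ[ℝ] (Fin n → ℝ)) : (Fin n → ℝ) → (Fin n → ℝ)) ∘
      (fun i : Fin n => (Pi.single i 1 : Fin n → ℝ)) = fun i => x (φ i) :=
    funext (fun i => hLs i)
  have e2 : ((A : (Fin n → ℝ) →ᵃ[ℝ] (Fin n → ℝ)) : (Fin n → ℝ) → (Fin n → ℝ)) ∘
      (fun j : Fin k => -(wv g' w j)) = fun j => x (a j) :=
    funext (fun j => hLa j)
  rw [e1, e2]
  ext y
  constructor
  · rintro ⟨b, rfl⟩
    obtain ⟨s, rfl⟩ := E.surjective b
    rcases s with j | i
    · exact Or.inr ⟨j, rfl⟩
    · exact Or.inl ⟨i, rfl⟩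
  · rintro (⟨i, rfl⟩ | ⟨j, rfl⟩)
    · exact ⟨_, rfl⟩
    · exact ⟨_, rfl⟩

end Pool.Agent.Helper24.LW
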